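import Pool.Agent.Y527.ZA.Stm
set_option autoImplicit false

/-! The value of a polynomial at a root of unity is expressible by congruences. -/

namespace Pool.Agent.Y442.ZA

open Polynomial NumberField
open Pool.Agent.H358R3 Pool.Agent.Y527.ZA

theorem ev_cons {R : Type} [CommSemiring R] (c : ℕ) (l : List ℕ) (x : R) :
    ev (c :: l) x = (c : R) + x * ev l x := rfl

theorem ev_dvd (ζ a : Zab) (l : List ℕ) : ζ - a ∣ ev l ζ - ev l a := by
  induction l with
  | nil =>
    have e : ev [] ζ - ev [] a = (0 : Zab) := by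
      show (0 : Zab) - 0 = 0
      ring
    rw [e]
    exact dvd_zero _
  | cons c l ih =>
    obtain ⟨d, hd⟩ := ih
    refine ⟨ζ * d + ev l a, ?_⟩
    rw [ev_cons, ev_cons]
    linear_combination ζ * hd

theorem ev_cast (l : List ℕ) (a : ℕ) : ((ev l a : ℕ) : Zab) = ev l (a : Zab) := by
  induction l with
  | nil =>
    show ((0 : ℕ) : Zab) = 0
    push_cast
    rfl
  | cons c l ih =>
    rw [ev_cons, ev_cons, ← ih]
    push_cast
    rfl

theorem h_EVAL : s_EVAL := by
  rintro ζ x l ⟨n, hn, hζ⟩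
  constructor
  · intro hx p a hp
    rintro ⟨u, v, w, h⟩
    apply hp
    obtain ⟨c, hc⟩ := ev_dvd ζ (a : Zab) l
    refine ⟨u, v + w * c, ?_⟩
    rw [ev_cast, hx] at h
    linear_combination h - w * hc
  · intro H
    by_contra hne
    have hy : x - ev l ζ ≠ 0 := fun h => hne (sub_eq_zero.1 h)
    obtain ⟨m, hm, hd⟩ := exists_int_mul _ hy
    obtain ⟨p, hp, hpm, hpn⟩ := Nat.exists_prime_gt_modEq_one (k := n) m.natAbs hn
    have hζp : ζ ^ p = ζ := by
      have h1 : n ∣ p - 1 := (Nat.modEq_iff_dvd' hp.one_lt.le).1 hpn.symm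
      obtain ⟨c, hc⟩ := h1
      have h2 : p = n * c + 1 := by have := hp.one_lt; omega
      rw [h2, pow_succ, pow_mul, hζ, one_pow, one_mul]
    obtain ⟨a, ha⟩ := exists_int_mem (y := ζ) p hp (by rw [hζp, sub_self]; exact dvd_zero _)
    obtain ⟨a', q, haq⟩ : ∃ (a' : ℕ) (q : ℤ), a = a' + p * q := by
      refine ⟨(a % p).toNat, a / p, ?_⟩
      have h0 : (p : ℤ) ≠ 0 := by exact_mod_cast hp.ne_zero
      rw [Int.toNat_of_nonneg (Int.emod_nonneg a h0)]
      exact (Int.emod_add_mul_ediv a p).symm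
    have haq' : (a : Zab) = (a' : Zab) + p * q := by
      have := congrArg (Int.cast : ℤ → Zab) haq
      push_cast at this
      exact this
    have h1 : ¬ ∃ u v : Zab, u * (p : Zab) + v * (ζ - (a' : Zab)) = 1 := by
      rintro ⟨u, v, h⟩
      apply ha
      refine ⟨u + v * q, v, ?_⟩
      rw [haq']
      linear_combination h
    have h2 := H p a' h1
    have h3 : Ideal.span {(p : Zab), ζ - (a' : Zab), x - ((ev l a' : ℕ) : Zab)} ≠
        (⊤ : Ideal Zab) := by
      intro h4
      apply h2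
      rw [Ideal.eq_top_iff_one, Ideal.mem_span_insert] at h4
      obtain ⟨u, z, hz, h5⟩ := h4
      rw [Ideal.mem_span_pair] at hz
      obtain ⟨v, w, h6⟩ := hz
      refine ⟨u, v, w, ?_⟩
      rw [h5, ← h6]
      ring
    obtain ⟨Q, hQ, hle⟩ := Ideal.exists_le_maximal _ h3
    have hpQ : (p : Zab) ∈ Q := hle (Ideal.subset_span (by simp))
    have haQ : ζ - (a' : Zab) ∈ Q := hle (Ideal.subset_span (by simp))
    have hxQ : x - ((ev l a' : ℕ) : Zab) ∈ Q := hle (Ideal.subset_span (by simp))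
    have hev : ev l ζ - ev l (a' : Zab) ∈ Q := Q.mem_of_dvd (ev_dvd ζ (a' : Zab) l) haQ
    have hyQ : x - ev l ζ ∈ Q := by
      have e : x - ev l ζ = (x - ((ev l a' : ℕ) : Zab)) - (ev l ζ - ev l (a' : Zab)) := by
        rw [ev_cast]
        ring
      rw [e]
      exact Q.sub_mem hxQ hev
    have hmQ : (m : Zab) ∈ Q := Q.mem_of_dvd hd hyQ
    have hcop : IsCoprime (p : ℤ) m := by
      exact (Int.isCoprime_iff_gcd_eq_one.2 (by
              have : Nat.Coprime p m.natAbs := (Nat.Prime.coprime_iff_not_dvd hp).2 (by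
                intro hd2
                have := Nat.le_of_dvd (Int.natAbs_pos.2 hm) hd2
                omega)
              simpa [Int.gcd] using this))
    obtain ⟨s, t, hst⟩ := hcop
    exact not_of_max Q hQ hpQ hmQ
      ⟨(s : Zab), (t : Zab), by exact_mod_cast congrArg (Int.cast : ℤ → Zab) hst⟩

end Pool.Agent.Y442.ZA
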