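import Pool.Agent.Y527.ZA.Stm
set_option autoImplicit false

/-! Automorphisms of the ring of abelian algebraic integers are transitive on the primitive roots of
unity. -/

namespace Pool.Agent.Y442.ZA

open Polynomial NumberField
open Pool.Agent.H358R3 Pool.Agent.Y527.ZA

theorem exists_psi (n : ℕ) (hn : n ≠ 0) (ζ : Zab) (hζ : IsPrimitiveRoot ζ n) :
    ∃ ψ : Qab →ₐ[ℚ] ℂ, ψ (zR n hn : Qab) = inc ζ := by
  have hpos := Nat.pos_of_ne_zero hn
  have hinj : Function.Injective (algebraMap (𝓞 Qab) Qab) := RingOfIntegers.coe_injective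
  have h1 : IsPrimitiveRoot (zR n hn : Qab) n := (zR_prim n hn).map_of_injective hinj
  have h2 : IsPrimitiveRoot (inc ζ) n := hζ.map_of_injective inc_inj
  have hz : aeval (inc ζ) (minpoly ℚ (zR n hn : Qab)) = 0 := by
    rw [← cyclotomic_eq_minpoly_rat h1 hpos, aeval_def, eval₂_eq_eval_map, map_cyclotomic]
    exact h2.isRoot_cyclotomic hpos
  have h3 : inc ζ ∈ (minpoly ℚ (zR n hn : Qab)).rootSet ℂ := by
    rw [mem_rootSet]
    exact ⟨minpoly.ne_zero (Algebra.IsAlgebraic.isAlgebraic (zR n hn : Qab)).isIntegral, hz⟩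
  rw [← Algebra.IsAlgebraic.range_eval_eq_rootSet_minpoly (F := ℚ) (K := Qab) ℂ (zR n hn : Qab)] at h3
  obtain ⟨ψ, hψ⟩ := h3
  exact ⟨ψ, hψ⟩

theorem psi_mem (ψ : Qab →ₐ[ℚ] ℂ) (x : Qab) : ψ x ∈ Qab := by
  obtain ⟨m, D, g, hm, hD, h⟩ := exists_rep x.2
  obtain ⟨t, ht⟩ : ∃ t : Qab, t = ⟨zt m, zt_mem m hm⟩ := ⟨_, rfl⟩
  have h1 : (D : Qab) * x = aeval t g := by
    apply Subtype.ext
    have h2 : ((aeval t g : Qab) : ℂ) = aeval ((t : Qab) : ℂ) g := by
      have h3 : (algebraMap Qab ℂ).toIntAlgHom (aeval t g) =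
          aeval ((algebraMap Qab ℂ).toIntAlgHom t) g := by
        rw [aeval_algHom_apply]
      exact h3
    rw [h2, ht]
    exact h
  have h2 : (D : ℂ) * ψ x = aeval (ψ t) g := by
    have h3 := congrArg ψ h1
    rw [map_mul, map_natCast] at h3
    rw [h3]
    have h4 : (ψ : Qab →+* ℂ).toIntAlgHom (aeval t g) =
        aeval ((ψ : Qab →+* ℂ).toIntAlgHom t) g := by
      rw [aeval_algHom_apply]
    exact h4
  have h3 : ψ t ∈ Qab := by
    refine root_mem hm ?_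
    rw [← map_pow]
    have h4 : t ^ m = 1 := by
      apply Subtype.ext
      rw [ht]
      exact (zt_prim m hm).pow_eq_one
    rw [h4, map_one]
  have h5 : aeval (ψ t) g ∈ Qab := by
    have h6 : aeval (ψ t) g = ((aeval (⟨ψ t, h3⟩ : Qab) g : Qab) : ℂ) := by
      have h3 : (algebraMap Qab ℂ).toIntAlgHom (aeval (⟨ψ t, h3⟩ : Qab) g) =
          aeval ((algebraMap Qab ℂ).toIntAlgHom (⟨ψ t, h3⟩ : Qab)) g := by
        rw [aeval_algHom_apply]
      exact h3.symm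
    rw [h6]
    exact Subtype.property _
  have hD' : (D : ℂ) ≠ 0 := Nat.cast_ne_zero.2 hD
  have h7 : ψ x = (D : ℂ)⁻¹ * aeval (ψ t) g := by
    rw [← h2, inv_mul_cancel_left₀ hD']
  rw [h7]
  refine mul_mem (inv_mem ?_) h5
  exact natCast_mem _ D

theorem h_GAL : s_GAL := by
  intro n hn ζ hζ
  obtain ⟨ψ, hψ⟩ := exists_psi n hn ζ hζ
  obtain ⟨σ', hσ'⟩ : ∃ σ' : Qab →ₐ[ℚ] Qab, ∀ x, ((σ' x : Qab) : ℂ) = ψ x :=
    ⟨ψ.codRestrict Qab.toSubalgebra (psi_mem ψ), fun _ => rfl⟩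
  have hb : Function.Bijective σ' := Algebra.IsAlgebraic.algHom_bijective σ'
  refine ⟨RingOfIntegers.mapRingEquiv (AlgEquiv.ofBijective σ' hb).toRingEquiv, ?_⟩
  apply RingOfIntegers.ext
  rw [RingOfIntegers.mapRingEquiv_apply]
  apply Subtype.ext
  show ((σ' (zR n hn : Qab) : Qab) : ℂ) = _
  rw [hσ', hψ]
  rfl

end Pool.Agent.Y442.ZA
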